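import Pool.Agent.H322R2.KD

open Polynomial

namespace Pool.Agent.Results.MP_9b3446_nt.EveryGap

/-- `H(P)`: the maximum of the absolute values of the coefficients of `P` (and `0` for `P = 0`). -/
def height (P : ℤ[X]) : ℕ := P.support.sup fun i => (P.coeff i).natAbs

/-- Mahler's exponent `w_n(ξ) ∈ [0, ∞]`: the supremum of the real `w ≥ 0` such that
`0 < |P(ξ)| ≤ H(P)^{-w}` for infinitely many `P ∈ ℤ[X]` of degree at most `n`. -/
noncomputable def mahlerExp (n : ℕ) (ξ : ℝ) : ENNReal :=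
  sSup {e : ENNReal | ∃ w : ℝ, 0 ≤ w ∧ e = ENNReal.ofReal w ∧
    {P : ℤ[X] | P.natDegree ≤ n ∧ 0 < |aeval ξ P| ∧
      |aeval ξ P| ≤ (height P : ℝ) ^ (-w)}.Infinite}

/-- `P` is a minimal polynomial of `α` over `ℤ` (it is unique up to sign): `P` is irreducible in
`ℤ[X]` (hence of content `1`) and vanishes at `α`. -/
def IsIntMinpoly (P : ℤ[X]) (α : ℂ) : Prop := Irreducible P ∧ aeval α P = 0

/-- Koksma's exponent `w_n^*(ξ) ∈ [0, ∞]`: the supremum of the real `w ≥ 0` such that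
`0 < |ξ - α| ≤ H(α)^{-w-1}` for infinitely many algebraic `α ∈ ℂ` of degree at most `n`, where
the degree and the height `H(α)` are those of the minimal polynomial of `α` over `ℤ`. -/
noncomputable def koksmaExp (n : ℕ) (ξ : ℝ) : ENNReal :=
  sSup {e : ENNReal | ∃ w : ℝ, 0 ≤ w ∧ e = ENNReal.ofReal w ∧
    {α : ℂ | ∃ P : ℤ[X], IsIntMinpoly P α ∧ P.natDegree ≤ n ∧ 0 < ‖(ξ : ℂ) - α‖ ∧
      ‖(ξ : ℂ) - α‖ ≤ (height P : ℝ) ^ (-w - 1)}.Infinite}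

theorem coeff_le_height (P : ℤ[X]) (i : ℕ) : |(P.coeff i : ℝ)| ≤ height P := by
  by_cases h : i ∈ P.support
  · have h1 : (P.coeff i).natAbs ≤ height P :=
      Finset.le_sup (f := fun i => (P.coeff i).natAbs) h
    have h2 : |(P.coeff i : ℝ)| = ((P.coeff i).natAbs : ℝ) := by
      rw [Nat.cast_natAbs]; push_cast; rfl
    rw [h2]
    exact_mod_cast h1
  · rw [notMem_support_iff] at h
    rw [h]
    simp

theorem one_le_height (P : ℤ[X]) (hP : P ≠ 0) : (1 : ℝ) ≤ height P :=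
  H322R2.k_one_le P hP _ (coeff_le_height P)

theorem height_le (P : ℤ[X]) (H : ℕ) (h : ∀ i, (P.coeff i).natAbs ≤ H) : height P ≤ H :=
  Finset.sup_le fun i _ => h i

theorem finite_height (D B : ℕ) : {P : ℤ[X] | P.natDegree ≤ D ∧ height P ≤ B}.Finite := by
  have h1 : (Set.pi Set.univ (fun _ : Fin (D + 1) => Set.Icc (-(B : ℤ)) B)).Finite :=
    Set.Finite.pi fun _ => Set.finite_Icc _ _
  refine Set.Finite.of_injOn (f := fun P : ℤ[X] => fun i : Fin (D + 1) => P.coeff i) ?_ ?_ h1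
  · rintro P ⟨_, hP⟩ i _
    have h2 := coeff_le_height P i
    have h3 : |P.coeff i| ≤ (B : ℤ) := by
      have : (height P : ℝ) ≤ B := by exact_mod_cast hP
      have h4 := h2.trans this
      exact_mod_cast h4
    exact abs_le.mp h3
  · rintro P ⟨hP, _⟩ Q ⟨hQ, _⟩ hPQ
    ext i
    by_cases hi : i ≤ D
    · exact congrFun hPQ ⟨i, by omega⟩
    · rw [coeff_eq_zero_of_natDegree_lt (by omega), coeff_eq_zero_of_natDegree_lt (by omega)]

/-- the lower bound hypothesis -/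
def Low (D : ℕ) (Ω x : ℝ) : Prop := ∃ c : ℝ, 0 < c ∧ ∀ P : ℤ[X], P ≠ 0 → P.natDegree ≤ D →
  ∀ h : ℝ, (∀ i, |(P.coeff i : ℝ)| ≤ h) → c * h ^ (-Ω) ≤ |aeval x P|

/-- good rational approximations -/
def Good (Ω x : ℝ) : Prop := ∀ M : ℕ, ∃ m p : ℕ, M < m ∧ p % 12 = 2 ∧ p ≤ 3 ^ m ∧
  0 < x - p / 3 ^ m ∧ x - p / 3 ^ m ≤ ((3 : ℝ) ^ m) ^ (-Ω - 1)

theorem bounded_of (c C Ω w : ℝ) (hc : 0 < c) (hw : Ω < w) :
    ∃ B : ℕ, ∀ H : ℝ, 1 ≤ H → c * H ^ (-Ω) ≤ C * H ^ (-w) → H ≤ B := by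
  refine ⟨⌈(C / c) ^ ((w - Ω)⁻¹)⌉₊, ?_⟩
  intro H hH h
  have hH0 : 0 < H := by linarith
  have hwΩ : 0 < w - Ω := by linarith
  have h1 : H ^ (w - Ω) ≤ C / c := by
    rw [le_div_iff₀ hc]
    have h2 : H ^ (w - Ω) = H ^ (-Ω) * H ^ w := by
      rw [← Real.rpow_add hH0]; congr 1; ring
    have h3 : H ^ (-w) * H ^ w = 1 := by
      rw [← Real.rpow_add hH0]; simp
    have h4 : 0 < H ^ w := Real.rpow_pos_of_pos hH0 _
    calc H ^ (w - Ω) * c = (c * H ^ (-Ω)) * H ^ w := by rw [h2]; ring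
      _ ≤ (C * H ^ (-w)) * H ^ w := mul_le_mul_of_nonneg_right h h4.le
      _ = C := by rw [mul_assoc, h3, mul_one]
  have h5 : H = (H ^ (w - Ω)) ^ ((w - Ω)⁻¹) := by
    rw [← Real.rpow_mul hH0.le, mul_inv_cancel₀ hwΩ.ne', Real.rpow_one]
  rw [h5]
  refine le_trans ?_ (Nat.le_ceil _)
  exact Real.rpow_le_rpow (by positivity) h1 (by positivity)

theorem mahler_le (D : ℕ) (Ω x w : ℝ) (h : Low D Ω x)
    (hinf : {P : ℤ[X] | P.natDegree ≤ D ∧ 0 < |aeval x P| ∧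
      |aeval x P| ≤ (height P : ℝ) ^ (-w)}.Infinite) : w ≤ Ω := by
  obtain ⟨c, hc, hlow⟩ := h
  by_contra hlt
  push Not at hlt
  obtain ⟨B, hB⟩ := bounded_of c 1 Ω w hc hlt
  apply hinf
  refine (finite_height D B).subset ?_
  rintro P ⟨hdeg, hpos, hle⟩
  have hP : P ≠ 0 := by
    rintro rfl
    simp at hpos
  refine ⟨hdeg, ?_⟩
  have h1 := hlow P hP hdeg (height P) (coeff_le_height P)
  have h2 := hB (height P) (one_le_height P hP) (by rw [one_mul]; exact h1.trans hle)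
  exact_mod_cast h2

theorem pow_diffC (a b : ℂ) (ha : ‖a‖ ≤ 2) (hb : ‖b‖ ≤ 2) (i : ℕ) :
    ‖a ^ i - b ^ i‖ ≤ i * 2 ^ i * ‖a - b‖ := by
  induction i with
  | zero => simp
  | succ i ih =>
    have h1 : a ^ (i + 1) - b ^ (i + 1) = a * (a ^ i - b ^ i) + (a - b) * b ^ i := by ring
    rw [h1]
    refine (norm_add_le _ _).trans ?_
    rw [norm_mul, norm_mul, norm_pow]
    have h2 : ‖b‖ ^ i ≤ 2 ^ i := pow_le_pow_left₀ (norm_nonneg _) hb i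
    have h3 : ‖a‖ * ‖a ^ i - b ^ i‖ ≤ 2 * (i * 2 ^ i * ‖a - b‖) :=
      mul_le_mul ha ih (norm_nonneg _) (by norm_num)
    have h4 : ‖a - b‖ * ‖b‖ ^ i ≤ ‖a - b‖ * 2 ^ i :=
      mul_le_mul_of_nonneg_left h2 (norm_nonneg _)
    have h5 : 0 ≤ ‖a - b‖ * 2 ^ i := by positivity
    push_cast
    rw [pow_succ]
    nlinarith

theorem diffC (P : ℤ[X]) (D : ℕ) (hD : P.natDegree ≤ D) (h : ℝ)
    (hh : ∀ i, |(P.coeff i : ℝ)| ≤ h) (a b : ℂ) (ha : ‖a‖ ≤ 2) (hb : ‖b‖ ≤ 2) :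
    ‖aeval a P - aeval b P‖ ≤ (D + 1) ^ 2 * 2 ^ D * h * ‖a - b‖ := by
  have hh0 : 0 ≤ h := le_trans (abs_nonneg _) (hh 0)
  rw [aeval_eq_sum_range' (lt_of_le_of_lt hD (Nat.lt_succ_self D)),
    aeval_eq_sum_range' (lt_of_le_of_lt hD (Nat.lt_succ_self D)), ← Finset.sum_sub_distrib]
  refine (norm_sum_le _ _).trans ?_
  calc ∑ i ∈ Finset.range D.succ, ‖P.coeff i • a ^ i - P.coeff i • b ^ i‖
      ≤ ∑ i ∈ Finset.range D.succ, (D + 1) * 2 ^ D * h * ‖a - b‖ := by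
        apply Finset.sum_le_sum
        intro i hi
        rw [zsmul_eq_mul, zsmul_eq_mul, ← mul_sub, norm_mul]
        have h1 := pow_diffC a b ha hb i
        have hi' := Finset.mem_range.mp hi
        have h2 : (i : ℝ) ≤ D + 1 := by exact_mod_cast hi'.le
        have h3 : (2 : ℝ) ^ i ≤ 2 ^ D := pow_le_pow_right₀ (by norm_num) (by omega)
        have h4 : ‖((P.coeff i : ℤ) : ℂ)‖ ≤ h := by
          rw [Complex.norm_intCast]; exact hh i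
        have h5 : (i : ℝ) * 2 ^ i * ‖a - b‖ ≤ (D + 1) * 2 ^ D * ‖a - b‖ := by
          apply mul_le_mul_of_nonneg_right _ (norm_nonneg _)
          exact mul_le_mul h2 h3 (by positivity) (by positivity)
        calc ‖((P.coeff i : ℤ) : ℂ)‖ * ‖a ^ i - b ^ i‖ ≤ h * ((D + 1) * 2 ^ D * ‖a - b‖) :=
              mul_le_mul h4 (h1.trans h5) (norm_nonneg _) hh0
          _ = (D + 1) * 2 ^ D * h * ‖a - b‖ := by ring
    _ = (D + 1) ^ 2 * 2 ^ D * h * ‖a - b‖ := by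
        rw [Finset.sum_const, Finset.card_range, nsmul_eq_mul]; push_cast; ring

theorem koksma_le (D : ℕ) (Ω x w : ℝ) (hx0 : 0 ≤ x) (hx1 : x ≤ 1) (hw : 0 ≤ w) (h : Low D Ω x)
    (hinf : {α : ℂ | ∃ P : ℤ[X], IsIntMinpoly P α ∧ P.natDegree ≤ D ∧ 0 < ‖(x : ℂ) - α‖ ∧
      ‖(x : ℂ) - α‖ ≤ (height P : ℝ) ^ (-w - 1)}.Infinite) : w ≤ Ω := by
  obtain ⟨c, hc, hlow⟩ := h
  by_contra hlt
  push Not at hlt
  obtain ⟨B, hB⟩ := bounded_of c (((D : ℝ) + 1) ^ 2 * 2 ^ D) Ω w hc hlt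
  apply hinf
  refine ((finite_height D B).biUnion (t := fun P : ℤ[X] => P.rootSet ℂ)
    (fun P _ => P.rootSet_finite ℂ)).subset ?_
  rintro α ⟨P, ⟨hirr, hroot⟩, hdeg, hpos, hle⟩
  have hP : P ≠ 0 := hirr.ne_zero
  rw [Set.mem_iUnion₂]
  have hH1 := one_le_height P hP
  have hH0 : (0 : ℝ) < height P := by linarith
  refine ⟨P, ⟨hdeg, ?_⟩, ?_⟩
  · have h1 := hlow P hP hdeg (height P) (coeff_le_height P)
    have hxn : ‖(x : ℂ)‖ ≤ 1 := by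
      rw [Complex.norm_real, Real.norm_eq_abs, abs_of_nonneg hx0]; exact hx1
    have h2 : (height P : ℝ) ^ (-w - 1) ≤ 1 :=
      Real.rpow_le_one_of_one_le_of_nonpos hH1 (by linarith)
    have hαn : ‖α‖ ≤ 2 := by
      have h3 : ‖α‖ ≤ ‖(x : ℂ)‖ + ‖(x : ℂ) - α‖ := by
        have := norm_sub_le (x : ℂ) ((x : ℂ) - α)
        simpa using this
      linarith
    have h4 := diffC P D hdeg (height P) (coeff_le_height P) (x : ℂ) α (by linarith) hαn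
    have h5 : ‖aeval (x : ℂ) P - aeval α P‖ = |aeval x P| := by
      rw [hroot, sub_zero]
      have : aeval (x : ℂ) P = ((aeval x P : ℝ) : ℂ) := by
        rw [show (x : ℂ) = algebraMap ℝ ℂ x from rfl, aeval_algebraMap_apply]
        rfl
      rw [this, Complex.norm_real, Real.norm_eq_abs]
    rw [h5] at h4
    have h6 : ((D : ℝ) + 1) ^ 2 * 2 ^ D * (height P : ℝ) * ‖(x : ℂ) - α‖
        ≤ ((D : ℝ) + 1) ^ 2 * 2 ^ D * (height P : ℝ) ^ (-w) := by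
      have h7 : (height P : ℝ) ^ (-w) = (height P : ℝ) * (height P : ℝ) ^ (-w - 1) := by
        have e : (-w : ℝ) = 1 + (-w - 1) := by ring
        conv_lhs => rw [e]
        rw [Real.rpow_add hH0, Real.rpow_one]
      rw [h7, mul_assoc]
      apply mul_le_mul_of_nonneg_left _ (by positivity)
      exact mul_le_mul_of_nonneg_left hle hH0.le
    have h8 := hB (height P) hH1 (h1.trans (h4.trans h6))
    exact_mod_cast h8
  · rw [mem_rootSet]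
    exact ⟨hP, hroot⟩

theorem height_kR (m p : ℕ) (hp : p ≤ 3 ^ m) : height (H322R2.kR (3 ^ m) p 1) ≤ 3 ^ m := by
  apply height_le
  intro i
  unfold H322R2.kR
  rw [coeff_sub, coeff_C_mul, coeff_X_pow, coeff_C]
  rcases Nat.lt_trichotomy i 1 with h | h | h
  · have : i = 0 := by omega
    subst this
    simp only [Nat.zero_ne_one, if_false, if_true, mul_zero, zero_sub, Int.natAbs_neg,
      Int.natAbs_natCast]
    exact hp
  · subst h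
    simp [Int.natAbs_pow]
  · rw [if_neg (by omega), if_neg (by omega)]
    simp

theorem mahler_ge (D : ℕ) (hD : 1 ≤ D) (Ω x : ℝ) (hΩ : 0 ≤ Ω) (h : Good Ω x) :
    {P : ℤ[X] | P.natDegree ≤ D ∧ 0 < |aeval x P| ∧
      |aeval x P| ≤ (height P : ℝ) ^ (-Ω)}.Infinite := by
  apply Set.Infinite.of_image (fun P : ℤ[X] => (P.coeff 1).natAbs)
  apply Set.infinite_of_forall_exists_gt
  intro M
  obtain ⟨m, p, hMm, hp12, hp3, hpos, hle⟩ := h M
  have h3 : (3 : ℤ) ^ m ≠ 0 := by positivity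
  have hdeg := H322R2.kR_natDegree (3 ^ m) p h3 1 le_rfl
  have hT : (0 : ℝ) < (3 : ℝ) ^ m := by positivity
  have hne : H322R2.kR (3 ^ m) p 1 ≠ 0 := by
    intro h0; rw [h0] at hdeg; simp at hdeg
  have heval : aeval x (H322R2.kR (3 ^ m) p 1) = (3 : ℝ) ^ m * (x - p / 3 ^ m) := by
    rw [H322R2.kR_aeval]
    push_cast
    field_simp
  have hev : 0 < aeval x (H322R2.kR (3 ^ m) p 1) := by
    rw [heval]; positivity
  refine ⟨_, ⟨H322R2.kR (3 ^ m) p 1, ⟨by omega, abs_pos.mpr hev.ne', ?_⟩, rfl⟩, ?_⟩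
  · rw [abs_of_pos hev, heval]
    have h4 := height_kR m p hp3
    have h5 : (height (H322R2.kR (3 ^ m) p 1) : ℝ) ≤ (3 : ℝ) ^ m := by exact_mod_cast h4
    have h6 : ((3 : ℝ) ^ m) ^ (-Ω) ≤ (height (H322R2.kR (3 ^ m) p 1) : ℝ) ^ (-Ω) := by
      apply Real.rpow_le_rpow_of_nonpos _ h5 (by linarith)
      have := one_le_height _ hne
      linarith
    refine le_trans ?_ h6
    have h7 : ((3 : ℝ) ^ m) ^ (-Ω) = (3 : ℝ) ^ m * ((3 : ℝ) ^ m) ^ (-Ω - 1) := by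
      have e : (-Ω : ℝ) = 1 + (-Ω - 1) := by ring
      conv_lhs => rw [e]
      rw [Real.rpow_add hT, Real.rpow_one]
    rw [h7]
    exact mul_le_mul_of_nonneg_left hle hT.le
  · have h8 : (H322R2.kR (3 ^ m) p 1).coeff 1 = 3 ^ m := by
      unfold H322R2.kR
      rw [coeff_sub, coeff_C_mul, coeff_X_pow_self, coeff_C, if_neg (by omega)]
      simp
    simp only [h8, Int.natAbs_pow]
    have : m < 3 ^ m := Nat.lt_pow_self (by norm_num)
    simp only [Int.reduceAbs]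
    omega

theorem koksma_ge (D : ℕ) (hD : 1 ≤ D) (Ω x : ℝ) (hΩ : 0 ≤ Ω) (h : Good Ω x) :
    {α : ℂ | ∃ P : ℤ[X], IsIntMinpoly P α ∧ P.natDegree ≤ D ∧ 0 < ‖(x : ℂ) - α‖ ∧
      ‖(x : ℂ) - α‖ ≤ (height P : ℝ) ^ (-Ω - 1)}.Infinite := by
  apply Set.Infinite.of_image (fun α : ℂ => ‖(x : ℂ) - α‖⁻¹)
  apply Set.infinite_of_forall_exists_gt
  intro a
  obtain ⟨m, p, hMm, hp12, hp3, hpos, hle⟩ := h ⌈a⌉₊
  have h3 : (3 : ℤ) ^ m ≠ 0 := by positivity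
  have hT : (0 : ℝ) < (3 : ℝ) ^ m := by positivity
  have hT1 : (1 : ℝ) ≤ (3 : ℝ) ^ m := one_le_pow₀ (by norm_num)
  have hirr := H322R2.kR_irr m (by omega) p hp12 1 le_rfl
  have hdeg := H322R2.kR_natDegree (3 ^ m) p h3 1 le_rfl
  set α : ℂ := (((p : ℝ) / 3 ^ m : ℝ) : ℂ) with hα
  have hnorm : ‖(x : ℂ) - α‖ = x - p / 3 ^ m := by
    rw [hα, ← Complex.ofReal_sub, Complex.norm_real, Real.norm_eq_abs, abs_of_pos hpos]
  refine ⟨_, ⟨α, ⟨H322R2.kR (3 ^ m) p 1, ⟨hirr, ?_⟩, by omega, ?_, ?_⟩, rfl⟩, ?_⟩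
  · rw [H322R2.kR_aeval, hα]
    push_cast
    field_simp
    simp
  · rw [hnorm]; exact hpos
  · rw [hnorm]
    refine hle.trans ?_
    have h4 := height_kR m p hp3
    have h5 : (height (H322R2.kR (3 ^ m) p 1) : ℝ) ≤ (3 : ℝ) ^ m := by exact_mod_cast h4
    apply Real.rpow_le_rpow_of_nonpos _ h5 (by linarith)
    have := one_le_height _ hirr.ne_zero
    linarith
  · simp only
    rw [hnorm]
    have h6 : ((3 : ℝ) ^ m) ^ (-Ω - 1) ≤ ((3 : ℝ) ^ m)⁻¹ := by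
      rw [← Real.rpow_neg_one]
      exact Real.rpow_le_rpow_of_exponent_le hT1 (by linarith)
    have h7 : (3 : ℝ) ^ m ≤ (x - p / 3 ^ m)⁻¹ := by
      rw [le_inv_comm₀ hT hpos]
      exact hle.trans h6
    have h8 := H322R2.k_lt_three m
    have h9 : a ≤ (⌈a⌉₊ : ℝ) := Nat.le_ceil a
    have h10 : (⌈a⌉₊ : ℝ) < m := by exact_mod_cast hMm
    linarith

theorem mahler_eq (D : ℕ) (hD : 1 ≤ D) (Ω x : ℝ) (hΩ : 0 ≤ Ω) (hlow : Low D Ω x)
    (hgood : Good Ω x) : mahlerExp D x = ENNReal.ofReal Ω := by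
  apply le_antisymm
  · apply sSup_le
    rintro _ ⟨w, hw, rfl, hinf⟩
    exact ENNReal.ofReal_le_ofReal (mahler_le D Ω x w hlow hinf)
  · exact le_sSup ⟨Ω, hΩ, rfl, mahler_ge D hD Ω x hΩ hgood⟩

theorem koksma_eq (D : ℕ) (hD : 1 ≤ D) (Ω x : ℝ) (hx0 : 0 ≤ x) (hx1 : x ≤ 1) (hΩ : 0 ≤ Ω)
    (hlow : Low D Ω x) (hgood : Good Ω x) : koksmaExp D x = ENNReal.ofReal Ω := by
  apply le_antisymm
  · apply sSup_le
    rintro _ ⟨w, hw, rfl, hinf⟩
    exact ENNReal.ofReal_le_ofReal (koksma_le D Ω x w hx0 hx1 hw hlow hinf)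
  · exact le_sSup ⟨Ω, hΩ, rfl, koksma_ge D hD Ω x hΩ hgood⟩

/-- the joint spectrum -/
theorem main (n k : ℕ) (hn : 1 ≤ n) (hk : 2 ≤ k) (W V : ℝ)
    (hW : 2 * (k : ℝ) ^ 2 * n + k ≤ W) (hWV : W ≤ V) (hVW : V + 1 ≤ k * (W + 1)) :
    ∃ ξ : ℝ, Transcendental ℤ ξ ∧
      mahlerExp n (ξ ^ k) = ENNReal.ofReal W ∧ koksmaExp n (ξ ^ k) = ENNReal.ofReal W ∧
      mahlerExp (k * n) ξ = ENNReal.ofReal V ∧ koksmaExp (k * n) ξ = ENNReal.ofReal V := by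
  obtain ⟨ξ, htr, h0, h1, hl1, hl2, hg1, hg2⟩ := H322R2.k_main n k hn hk W V
    (by push_cast; nlinarith) hWV hVW
  have hW0 : 0 ≤ W := by
    have : 0 ≤ 2 * (k : ℝ) ^ 2 * n + k := by positivity
    linarith
  have hV0 : 0 ≤ V := hW0.trans hWV
  have hkn : 1 ≤ k * n := Nat.mul_pos (by omega) hn
  exact ⟨ξ, htr, mahler_eq n hn W _ hW0 hl2 hg2,
    koksma_eq n hn W _ (by positivity) (pow_le_one₀ h0 h1) hW0 hl2 hg2,
    mahler_eq (k * n) hkn V ξ hV0 hl1 hg1, koksma_eq (k * n) hkn V ξ h0 h1 hV0 hl1 hg1⟩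

/-- For `n ≥ 1`, `k ≥ 2` and all reals `W ≥ 2k²n + k` and `W ≤ V ≤ k(W+1) - 1` there is a real
transcendental `ξ` with `w_n(ξ^k) = w_n^*(ξ^k) = W` and `w_{kn}(ξ) = w_{kn}^*(ξ) = V`. -/
theorem result : ∀ n k : ℕ, 1 ≤ n → 2 ≤ k → ∀ W V : ℝ, 2 * (k : ℝ) ^ 2 * n + k ≤ W → W ≤ V →
    V + 1 ≤ k * (W + 1) → ∃ ξ : ℝ, Transcendental ℤ ξ ∧
      mahlerExp n (ξ ^ k) = ENNReal.ofReal W ∧ koksmaExp n (ξ ^ k) = ENNReal.ofReal W ∧
      mahlerExp (k * n) ξ = ENNReal.ofReal V ∧ koksmaExp (k * n) ξ = ENNReal.ofReal V :=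
  fun n k hn hk W V => main n k hn hk W V

end Pool.Agent.Results.MP_9b3446_nt.EveryGap
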